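import Pool.Agent.Helper62.PM.St2

/-!
# Project PM, module XK: `A` is bounded and uniformly continuous on smooth bodies
-/

set_option autoImplicit false

open MeasureTheory Metric Set Filter Topology Polynomial
open scoped RealInnerProductSpace ContDiff

namespace Pool.Agent.Helper70.PM

open Pool.Agent.Helper62.PM
open Pool.Agent.Helper62.Mink

private lemma nrm {n : ℕ} (w : sphere (0 : E n) 1) : ‖(w : E n)‖ = 1 := by simp

/-- Bound of a product by the bound of one factor. -/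
private lemma int_bd {n : ℕ} {f g : E n → ℝ} (hg : Continuous g) {R : ℝ}
    (hf : ∀ x : E n, ‖x‖ = 1 → |f x| ≤ R) :
    |∫ w : sphere (0 : E n) 1, f (w : E n) * g (w : E n) ∂(sg n)| ≤
      R * ∫ w : sphere (0 : E n) 1, |g (w : E n)| ∂(sg n) := by
  have h1 : |∫ w : sphere (0 : E n) 1, f (w : E n) * g (w : E n) ∂(sg n)| ≤
      ∫ w : sphere (0 : E n) 1, |f (w : E n) * g (w : E n)| ∂(sg n) := abs_integral_le_integral_abs
  refine h1.trans ?_
  rw [← integral_const_mul]
  refine integral_mono_of_nonneg (Eventually.of_forall fun w => abs_nonneg _) ?_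
    (Eventually.of_forall fun w => ?_)
  · exact (sphere_integrable (φ := fun x => |g x|) (hg.abs.continuousOn)).const_mul R
  · simp only [abs_mul]
    exact mul_le_mul_of_nonneg_right (hf _ (nrm w)) (abs_nonneg _)

private lemma S1_coord {n : ℕ} (i : Fin n) : S1 (fun z : E n => z i) where
  hom := fun c _ x => by simp
  smooth := by
    apply ContDiff.contDiffOn
    exact (EuclideanSpace.proj (𝕜 := ℝ) i).contDiff

/-- `z ↦ ‖z‖ p(⟨x,z⟩/‖z‖)`. -/
private noncomputable def ps {n : ℕ} (p : ℝ[X]) (x z : E n) : ℝ :=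
  ‖z‖ * p.eval (inner ℝ x z / ‖z‖)

private lemma S1_ps {n : ℕ} (p : ℝ[X]) (x : E n) : S1 (ps p x) where
  hom := fun c hc z => by
    unfold ps
    rcases hc.eq_or_lt with rfl | hc
    · simp
    · rw [norm_smul, Real.norm_eq_abs, abs_of_pos hc, inner_smul_right,
        mul_div_mul_left _ _ hc.ne']
      ring
  smooth := by
    intro z hz
    have hz' : z ≠ 0 := hz
    have h1 : ContDiffAt ℝ ∞ (fun z : E n => ‖z‖) z := contDiffAt_norm ℝ hz'
    have h2 : ContDiffAt ℝ ∞ (fun z : E n => (inner ℝ x z : ℝ)) z :=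
      (contDiff_const.inner ℝ contDiff_id).contDiffAt
    have h3 : ContDiffAt ℝ ∞ (fun z : E n => (inner ℝ x z : ℝ) / ‖z‖) z :=
      h2.div h1 (norm_ne_zero_iff.2 hz')
    have h4 : ContDiffAt ℝ ∞ (fun z : E n => p.eval ((inner ℝ x z : ℝ) / ‖z‖)) z := by
      have h5 : ContDiff ℝ ∞ (fun t : ℝ => p.eval t) := by
        have := p.contDiff_aeval (𝕜 := ℝ) ∞
        simpa using this
      exact h5.contDiffAt.comp z h3
    exact (h1.mul h4).contDiffWithinAt

private lemma ps_sphere {n : ℕ} (p : ℝ[X]) (x : E n) (w : sphere (0 : E n) 1) :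
    ps p x (w : E n) = p.eval (inner ℝ x (w : E n)) := by
  unfold ps
  rw [nrm w, one_mul, div_one]

private lemma ps_rot {n : ℕ} (p : ℝ[X]) (θ : E n ≃ₗᵢ[ℝ] E n) (e z : E n) :
    ps p (θ e) (θ z) = ps p e z := by
  unfold ps
  rw [LinearIsometryEquiv.norm_map, LinearIsometryEquiv.inner_map_map]

private lemma inner_mem {n : ℕ} {x : E n} (hx : ‖x‖ = 1) (w : sphere (0 : E n) 1) :
    (inner ℝ x (w : E n) : ℝ) ∈ Icc (-1 : ℝ) 1 := by
  have := inner_div_mem x w
  rwa [hx, div_one] at this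

/-- Approximation of a Lipschitz function by the averages against `p`. -/
private lemma avg_close {n : ℕ} {F : E n → ℝ} {L ε : ℝ} (hL : 0 ≤ L) (hF : Continuous F)
    (hlip : ∀ x y : E n, F x - F y ≤ L * ‖x - y‖) {p : ℝ[X]}
    (hp : ∀ t ∈ Icc (-1 : ℝ) 1, 0 ≤ p.eval t) {x : E n} (hx : ‖x‖ = 1)
    (h1 : ∫ w : sphere (0 : E n) 1, p.eval (inner ℝ x (w : E n)) ∂(sg n) = 1)
    (h2 : ∫ w : sphere (0 : E n) 1, ‖(w : E n) - x‖ * p.eval (inner ℝ x (w : E n)) ∂(sg n) ≤ ε) :
    |F x - ∫ w : sphere (0 : E n) 1, F (w : E n) * p.eval (inner ℝ x (w : E n)) ∂(sg n)| ≤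
      L * ε := by
  have hpc : Continuous (fun z : E n => p.eval (inner ℝ x z)) := by fun_prop
  have i1 : Integrable (fun w : sphere (0 : E n) 1 => p.eval (inner ℝ x (w : E n))) (sg n) :=
    sphere_integrable (φ := fun z : E n => p.eval (inner ℝ x z)) hpc.continuousOn
  have i2 : Integrable (fun w : sphere (0 : E n) 1 => F (w : E n) * p.eval (inner ℝ x (w : E n)))
      (sg n) :=
    sphere_integrable (φ := fun z : E n => F z * p.eval (inner ℝ x z)) (hF.mul hpc).continuousOn
  have e1 : F x - ∫ w : sphere (0 : E n) 1, F (w : E n) * p.eval (inner ℝ x (w : E n)) ∂(sg n) =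
      ∫ w : sphere (0 : E n) 1, (F x - F (w : E n)) * p.eval (inner ℝ x (w : E n)) ∂(sg n) := by
    have e2 : F x = ∫ w : sphere (0 : E n) 1, F x * p.eval (inner ℝ x (w : E n)) ∂(sg n) := by
      rw [integral_const_mul, h1, mul_one]
    conv_lhs => rw [e2]
    rw [← integral_sub (i1.const_mul (F x)) i2]
    refine integral_congr_ae (Eventually.of_forall fun w => ?_)
    simp only
    ring
  rw [e1]
  refine abs_integral_le_integral_abs.trans ?_
  have h3 : ∫ w : sphere (0 : E n) 1,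
      |(F x - F (w : E n)) * p.eval (inner ℝ x (w : E n))| ∂(sg n) ≤
      ∫ w : sphere (0 : E n) 1, L * (‖(w : E n) - x‖ * p.eval (inner ℝ x (w : E n))) ∂(sg n) := by
    refine integral_mono_of_nonneg (Eventually.of_forall fun w => abs_nonneg _) ?_
      (Eventually.of_forall fun w => ?_)
    · refine Integrable.const_mul ?_ L
      exact sphere_integrable (φ := fun z : E n => ‖z - x‖ * p.eval (inner ℝ x z))
        ((by fun_prop : Continuous fun z : E n => ‖z - x‖).mul hpc).continuousOn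
    · simp only [abs_mul]
      have hp0 := hp _ (inner_mem hx w)
      rw [abs_of_nonneg hp0, ← mul_assoc]
      refine mul_le_mul_of_nonneg_right ?_ hp0
      rw [abs_le]
      have a1 := hlip x (w : E n)
      have a2 := hlip (w : E n) x
      rw [norm_sub_rev] at a1
      constructor
      · linarith
      · linarith
  refine h3.trans ?_
  rw [integral_const_mul]
  exact mul_le_mul_of_nonneg_left h2 hL

/-- Module XK. -/
theorem hXK : StD → StXF → StXI → StXJ → StXK := by
  intro hD hF hI hJ n e μ A N C hn he hμ hC hA hsub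
  have hn2 : 2 ≤ n := by omega
  obtain ⟨C0, hC0, hC0'⟩ := hJ n hn2
  have hS1n : S1 (fun z : E n => ‖z‖) := (hD n).2.2.2.1.1
  have hcn : Continuous (A fun z : E n => ‖z‖) := hA.cont _ hS1n
  have hci : ∀ i : Fin n, Continuous (A fun z : E n => z i) := fun i => hA.cont _ (S1_coord i)
  set q0 : ℝ := ∫ w : sphere (0 : E n) 1, |A (fun z : E n => ‖z‖) (w : E n)| ∂(sg n) with hq0
  set q : Fin n → ℝ := fun i =>
    ∫ w : sphere (0 : E n) 1, |A (fun z : E n => z i) (w : E n)| ∂(sg n) with hq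
  have hq0' : 0 ≤ q0 := integral_nonneg fun w => abs_nonneg _
  have hq' : ∀ i, 0 ≤ q i := fun i => integral_nonneg fun w => abs_nonneg _
  set Q : ℝ := q0 + ∑ i, q i with hQ
  have hQ0 : 0 ≤ Q := add_nonneg hq0' (Finset.sum_nonneg fun i _ => hq' i)
  have hRnn : ∀ (h : E n → ℝ) (R : ℝ), (∀ x : E n, ‖x‖ = 1 → |h x| ≤ R) → 0 ≤ R :=
    fun h R hR => (abs_nonneg _).trans (hR e he)
  -- part (i)
  have part1 : ∀ (h : E n → ℝ) (R : ℝ), S1 h → Sublinear h → (∀ x : E n, ‖x‖ = 1 → |h x| ≤ R) →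
      ∀ x : E n, |A h x| ≤ (C0 * Q) * R * ‖x‖ := by
    intro h R h1 h2 h3 x
    have hR := hRnn h R h3
    have b0 : |∫ w : sphere (0 : E n) 1, A h (w : E n) ∂(sg n)| ≤ R * Q := by
      have e1 := hI n e μ A N C hn he hμ hC hA h (fun z : E n => ‖z‖) h1 hS1n
      have e2 : ∫ w : sphere (0 : E n) 1, A h (w : E n) ∂(sg n) =
          ∫ w : sphere (0 : E n) 1, A h (w : E n) * ‖(w : E n)‖ ∂(sg n) := by
        refine integral_congr_ae (Eventually.of_forall fun w => ?_)
        simp only [nrm w, mul_one]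
      rw [e2, e1]
      refine (int_bd hcn h3).trans (mul_le_mul_of_nonneg_left ?_ hR)
      rw [hQ]
      have := Finset.sum_nonneg fun (i : Fin n) (_ : i ∈ Finset.univ) => hq' i
      linarith
    have bi : ∀ i : Fin n,
        |∫ w : sphere (0 : E n) 1, A h (w : E n) * (w : E n) i ∂(sg n)| ≤ R * Q := by
      intro i
      have e1 := hI n e μ A N C hn he hμ hC hA h (fun z : E n => z i) h1 (S1_coord i)
      rw [e1]
      refine (int_bd (hci i) h3).trans (mul_le_mul_of_nonneg_left ?_ hR)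
      rw [hQ]
      have := Finset.single_le_sum (f := q) (fun j _ => hq' j) (Finset.mem_univ i)
      simp only [hq] at this ⊢
      linarith
    have := hC0' (A h) (R * Q) (hsub h h1 h2) b0 bi x
    calc |A h x| ≤ C0 * (R * Q) * ‖x‖ := this
      _ = (C0 * Q) * R * ‖x‖ := by ring
  have hC1 : 0 ≤ C0 * Q := mul_nonneg hC0 hQ0
  refine ⟨⟨C0 * Q, hC1, part1⟩, ?_⟩
  -- part (ii)
  intro ε hε
  set C1 : ℝ := C0 * Q with hC1d
  have hden : (0 : ℝ) < 2 * C1 + 1 := by linarith
  obtain ⟨p, hp0, hp⟩ := hF n hn2 (ε / (2 * C1 + 1)) (div_pos hε hden)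
  set K : ℝ := ∫ w : sphere (0 : E n) 1, |A (ps p e) (w : E n)| ∂(sg n) with hK
  have hK0 : 0 ≤ K := integral_nonneg fun w => abs_nonneg _
  have hKx : ∀ x : E n, ‖x‖ = 1 →
      ∫ w : sphere (0 : E n) 1, |A (ps p x) (w : E n)| ∂(sg n) = K := by
    intro x hx
    obtain ⟨θ, hθ, hθe⟩ := exists_rot hn2 he hx
    rw [hK, ← sphere_integral_comp θ (fun z => |A (ps p x) z|)]
    refine integral_congr_ae (Eventually.of_forall fun w => ?_)
    simp only
    rw [← hA.rot θ hθ (ps p x) (S1_ps p x)]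
    congr 2
    funext z
    rw [← hθe]
    exact ps_rot p θ e z
  refine ⟨K, hK0, ?_⟩
  intro h h' R δ h1 h2 h1' h2' hR hR' hδ x hx
  have hR0 := hRnn h R hR
  have hL : 0 ≤ C1 * R := mul_nonneg hC1 hR0
  have lip : ∀ g : E n → ℝ, S1 g → Sublinear g → (∀ x : E n, ‖x‖ = 1 → |g x| ≤ R) →
      ∀ x y : E n, A g x - A g y ≤ C1 * R * ‖x - y‖ := by
    intro g g1 g2 g3 x y
    have a1 := (hsub g g1 g2).add_le y (x - y)
    rw [add_sub_cancel] at a1
    have a2 := (le_abs_self _).trans (part1 g R g1 g2 g3 (x - y))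
    linarith
  obtain ⟨hpx, hpx'⟩ := hp x hx
  have c1 := avg_close hL (hA.cont h h1) (lip h h1 h2 hR) hp0 hx hpx hpx'
  have c2 := avg_close hL (hA.cont h' h1') (lip h' h1' h2' hR') hp0 hx hpx hpx'
  have hcp : Continuous (A (ps p x)) := hA.cont _ (S1_ps p x)
  have s1 : ∀ g : E n → ℝ, S1 g →
      ∫ w : sphere (0 : E n) 1, A g (w : E n) * p.eval (inner ℝ x (w : E n)) ∂(sg n) =
        ∫ w : sphere (0 : E n) 1, g (w : E n) * A (ps p x) (w : E n) ∂(sg n) := by
    intro g g1
    rw [← hI n e μ A N C hn he hμ hC hA g (ps p x) g1 (S1_ps p x)]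
    refine integral_congr_ae (Eventually.of_forall fun w => ?_)
    simp only [ps_sphere]
  have hch : Continuous h := ((hD n).2.2.2.2 h h1).1
  have hch' : Continuous h' := ((hD n).2.2.2.2 h' h1').1
  have c3 : |∫ w : sphere (0 : E n) 1, A h (w : E n) * p.eval (inner ℝ x (w : E n)) ∂(sg n) -
      ∫ w : sphere (0 : E n) 1, A h' (w : E n) * p.eval (inner ℝ x (w : E n)) ∂(sg n)| ≤
      K * δ := by
    rw [s1 h h1, s1 h' h1', ← integral_sub
      (sphere_integrable (φ := fun z : E n => h z * A (ps p x) z) (hch.mul hcp).continuousOn)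
      (sphere_integrable (φ := fun z : E n => h' z * A (ps p x) z) (hch'.mul hcp).continuousOn)]
    have e3 : ∫ w : sphere (0 : E n) 1, (h (w : E n) * A (ps p x) (w : E n) -
        h' (w : E n) * A (ps p x) (w : E n)) ∂(sg n) =
        ∫ w : sphere (0 : E n) 1, (fun z => h z - h' z) (w : E n) * A (ps p x) (w : E n) ∂(sg n) := by
      refine integral_congr_ae (Eventually.of_forall fun w => ?_)
      simp only
      ring
    rw [e3]
    refine (int_bd hcp (R := δ) (f := fun z => h z - h' z) hδ).trans ?_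
    rw [hKx x hx, mul_comm]
  have c4 : C1 * R * (ε / (2 * C1 + 1)) * 2 ≤ ε * R := by
    have a1 : C1 * R * (ε / (2 * C1 + 1)) * 2 = (ε * R) * (2 * C1 / (2 * C1 + 1)) := by
      ring
    rw [a1]
    have a2 : 2 * C1 / (2 * C1 + 1) ≤ 1 := by
      rw [div_le_one hden]
      linarith
    have a3 : 0 ≤ ε * R := mul_nonneg hε.le hR0
    calc (ε * R) * (2 * C1 / (2 * C1 + 1)) ≤ (ε * R) * 1 := mul_le_mul_of_nonneg_left a2 a3
      _ = ε * R := mul_one _
  rw [abs_le] at c1 c2 c3 ⊢
  constructor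
  · linarith [c1.1, c1.2, c2.1, c2.2, c3.1, c3.2]
  · linarith [c1.1, c1.2, c2.1, c2.2, c3.1, c3.2]

end Pool.Agent.Helper70.PM
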